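import Pool.Agent.N375.AV.D
import Pool.Agent.Results.MP_e07dae_nt.WindowsWithoutExceptions

/-!
# The Lang-Waldschmidt inequality for all tuples whose product is near values of additive functions and their compositions

Let `F = f_1 ∘ ⋯ ∘ f_k` be a composition of functions dominated by the largest prime factor: for example additive functions
`f` with `f (q^j) ≤ C q^j` at the prime powers, with different values at different large primes (the sum of the prime factors),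
the largest prime factor itself, and Kempner's function. Let `G` have steps bounded below by a positive constant and growth at
most `v ^ d`, for example `G v = v`, `n ≥ 1`, `σ ≥ 0`, `κ ≥ 0` and `d (1/2 + n σ) + κ < 1`. For all `m ≤ N` but
`K N exp (- c (log N)^(1 / (k + 1)))`, the inequality `|P(a, b) - 1| ≥ (1/2) max |b_j| / H(a, b)` (no loss in the exponent) holds
for ALL tuples `a` of `n` positive integers with `|a_1 ⋯ a_n - G (F m)| ≤ F(m) ^ κ` and ALL tuples `b` of nonzero integers with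
`|b_j| ≤ (a_1 ⋯ a_n) ^ σ`. The values of `F` are taken with very large multiplicities and `F(m)` is in general much smaller than
`m`; and so this does not follow from the number of exceptional tuples.

Proof. The preimage of a set with at most `K X exp (- c (log X)^β)` elements up to `X` under a function dominated by the largest
prime factor has at most `K' X exp (- c' (log X)^(β / (1 + β)))` elements. The exceptional set has a power saving by the
starting theorem `WindowsWithoutExceptions` of this problem.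
-/

set_option autoImplicit false

namespace Pool.Agent.Results.MP_e07dae_nt.AdditiveValues

open Finset
open Pool.Agent.N733.TG (Expanding expanding_pow)
open Pool.Agent.N375.AV (PD comp good pd_additive pd_largest pd_kempner)

/-- `P(a, b) = a_1 ^ b_1 ... a_n ^ b_n`. -/
noncomputable def P {n : ℕ} (a : Fin n → ℕ) (b : Fin n → ℤ) : ℝ := ∏ i, (a i : ℝ) ^ b i

/-- `H(a, b) = |b_1 ... b_n a_1 ... a_n|`. -/
def H {n : ℕ} (a : Fin n → ℕ) (b : Fin n → ℤ) : ℕ := ∏ i, (b i).natAbs * a i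

/-- `max |b_j|`. -/
def maxExp {n : ℕ} (b : Fin n → ℤ) : ℕ := univ.sup fun i => (b i).natAbs

/-- the inequality holds for the bases `a` and all exponents up to a power of the product of the bases -/
def HoldsFor {n : ℕ} (σ : ℝ) (a : Fin n → ℕ) : Prop :=
  ∀ b : Fin n → ℤ, (∀ i, b i ≠ 0) → (∀ i, |(b i : ℝ)| ≤ ((∏ j, a j : ℕ) : ℝ) ^ σ) →
    1 / 2 * (maxExp b : ℝ) / (H a b : ℝ) ≤ |P a b - 1|

lemma count (n : ℕ) (hn : 1 ≤ n) (σ : ℝ) (hσ : 0 ≤ σ) (ε : ℝ) (hε : 0 < ε) : ∃ C : ℝ, ∀ X : ℝ, 1 ≤ X →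
    {a : Fin n → ℕ | ((∀ i, 1 ≤ a i) ∧ ¬ HoldsFor σ a) ∧ ((∏ i, a i : ℕ) : ℝ) ≤ X}.Finite ∧
      ({a : Fin n → ℕ | ((∀ i, 1 ≤ a i) ∧ ¬ HoldsFor σ a) ∧ ((∏ i, a i : ℕ) : ℝ) ≤ X}.ncard : ℝ) ≤
        C * X ^ (1 / 2 + n * σ + ε) := by
  obtain ⟨K, hK⟩ := WindowsWithoutExceptions.count n hn σ hσ ε hε
  refine ⟨K, fun X hX => ?_⟩
  obtain ⟨h2, h3⟩ := hK X hX
  have he : {a : Fin n → ℕ | ((∀ i, 1 ≤ a i) ∧ ¬ HoldsFor σ a) ∧ ((∏ i, a i : ℕ) : ℝ) ≤ X} ⊆
      {a | a ∈ WindowsWithoutExceptions.Exc n σ ∧ ((∏ j, a j : ℕ) : ℝ) ≤ X} := by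
    rintro a ⟨⟨g1, g2⟩, g3⟩
    unfold HoldsFor at g2
    push Not at g2
    obtain ⟨b, g4, g5, g6⟩ := g2
    exact ⟨⟨g1, b, g4, g5, g6⟩, g3⟩
  refine ⟨h2.subset he, le_trans ?_ h3⟩
  exact_mod_cast Set.ncard_le_ncard he h2

/-- **The Lang-Waldschmidt inequality near the values of compositions of additive functions.** Let `F = f_1 ∘ ⋯ ∘ f_k`, `f_i`
dominated by the largest prime factor. Let `G` have steps `≥ c > 0` and growth at most `v ^ d`, `n ≥ 1`, `σ ≥ 0`, `κ ≥ 0` and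
`d (1/2 + n σ) + κ < 1`. For all `m ≤ N` but `K N exp (- c (log N)^(1 / (k + 1)))`,
`|P(a, b) - 1| ≥ (1/2) max |b_j| / H(a, b)` for ALL tuples `a` of `n` positive integers with
`|a_1 ⋯ a_n - G (F m)| ≤ F(m) ^ κ` and ALL tuples `b` of nonzero integers with `|b_j| ≤ (a_1 ⋯ a_n) ^ σ`. The additive functions
with `f (q^j) ≤ C q^j` which are injective at the large primes, the largest prime factor and Kempner's function are examples of
such functions `f_i`, and `α v ^ d` with `α > 0`, `d ≥ 1` is an example of `G`. -/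
theorem result :
    (∀ fs : List (ℕ → ℕ), (∀ f ∈ fs, PD f) → ∀ (G : ℕ → ℝ) (d : ℝ), Expanding G d → ∀ (n : ℕ) (σ κ : ℝ), 1 ≤ n → 0 ≤ σ →
      0 ≤ κ → d * (1 / 2 + n * σ) + κ < 1 → ∃ c K : ℝ, 0 < c ∧ ∀ N : ℕ, 1 ≤ N →
      ({m : ℕ | 1 ≤ m ∧ m ≤ N ∧ ¬ ∀ a : Fin n → ℕ, (∀ i, 1 ≤ a i) →
        |((∏ i, a i : ℕ) : ℝ) - G (comp fs m)| ≤ (comp fs m : ℝ) ^ κ →
        ∀ b : Fin n → ℤ, (∀ i, b i ≠ 0) → (∀ i, |(b i : ℝ)| ≤ ((∏ j, a j : ℕ) : ℝ) ^ σ) →
          1 / 2 * (maxExp b : ℝ) / (H a b : ℝ) ≤ |P a b - 1|}.ncard : ℝ) ≤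
        K * N * Real.exp (-(c * Real.log N ^ ((1 : ℝ) / (fs.length + 1))))) ∧
    (∀ f : ℕ → ℕ, (∀ a b : ℕ, Nat.Coprime a b → f (a * b) = f a + f b) →
      (∃ C : ℕ, ∀ q j : ℕ, q.Prime → 1 ≤ j → f (q ^ j) ≤ C * q ^ j) →
      (∃ P : ℕ, ∀ p q : ℕ, p.Prime → q.Prime → P ≤ p → P ≤ q → f p = f q → p = q) → PD f) ∧
    (PD (fun n => n.primeFactors.sup id) ∧ PD (fun n => sInf {k : ℕ | n ∣ k.factorial})) ∧
    ∀ α d : ℝ, 0 < α → 1 ≤ d → Expanding (fun v => α * (v : ℝ) ^ d) d := by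
  refine ⟨fun fs hfs G d hG n σ κ hn hσ hκ h1 => ?_, fun f h2 h3 h4 => pd_additive h2 h3 h4, ⟨pd_largest, pd_kempner⟩,
    fun α d hα hd => expanding_pow hα hd⟩
  exact good (fun a : Fin n → ℕ => ∀ i, 1 ≤ a i) (fun a : Fin n → ℕ => HoldsFor σ a) (fun a => ((∏ i, a i : ℕ) : ℝ)) fs hfs hG
    (s := 1 / 2 + n * σ) (by positivity) hκ h1 (fun ε hε => count n hn σ hσ ε hε)

end Pool.Agent.Results.MP_e07dae_nt.AdditiveValues
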