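import Pool.Agent.N733.TG.K
import Pool.Agent.Results.MP_e07dae_nt.WindowsWithoutExceptions

/-!
# The Lang-Waldschmidt inequality for all tuples whose product is near values of multiplicative functions

Let `f` be a positive multiplicative function of at most polynomial growth such that `f p ≤ M p` for the large primes `p`,
with different values at different large primes; for example Euler's function or the sum of the divisors. Let `G` have steps
bounded below by a positive constant and growth at most `v ^ d`, for example `G v = v`, `n ≥ 1`, `σ ≥ 0`, `κ ≥ 0` and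
`d (1/2 + n σ) + κ < 1`. For all `m ≤ N` but `N / (log N) ^ U`, the inequality `|P(a, b) - 1| ≥ (1/2) max |b_j| / H(a, b)` (no
loss in the exponent) holds for ALL tuples `a` of `n` positive integers with `|a_1 ⋯ a_n - G (f m)| ≤ f(m) ^ κ` and ALL tuples
`b` of nonzero integers with `|b_j| ≤ (a_1 ⋯ a_n) ^ σ`. The values of `f` are in general taken with very large multiplicities,
and so this does not follow from the number of exceptional tuples.
-/

set_option autoImplicit false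

namespace Pool.Agent.Results.MP_e07dae_nt.MultiplicativeValues

open Finset
open Pool.Agent.N733.TG (LM Expanding lm_totient lm_sigma expanding_pow)

/-- `P(a, b) = a_1 ^ b_1 ... a_n ^ b_n`. -/
noncomputable def P {n : ℕ} (a : Fin n → ℕ) (b : Fin n → ℤ) : ℝ := ∏ i, (a i : ℝ) ^ b i

/-- `H(a, b) = |b_1 ... b_n a_1 ... a_n|`. -/
def H {n : ℕ} (a : Fin n → ℕ) (b : Fin n → ℤ) : ℕ := ∏ i, (b i).natAbs * a i

/-- `max |b_j|`. -/
def maxExp {n : ℕ} (b : Fin n → ℤ) : ℕ := univ.sup fun i => (b i).natAbs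

/-- **Theorem.** Let `f` be multiplicative and positive, of at most polynomial growth, with `f p ≤ M p` at the large primes,
and injective there. Let `G` have steps `≥ c > 0` and growth at most `v ^ d`, `n ≥ 1`, `σ ≥ 0`, `κ ≥ 0` and
`d (1/2 + n σ) + κ < 1`. Then for every `U` and all large `N`: for all `m ≤ N` but `N / (log N) ^ U`,
`|P(a, b) - 1| ≥ (1/2) max |b_j| / H(a, b)` for ALL tuples `a` of `n` positive integers with
`|a_1 ⋯ a_n - G (f m)| ≤ f(m) ^ κ` and ALL tuples `b` of nonzero integers with `|b_j| ≤ (a_1 ⋯ a_n) ^ σ`. Euler's function and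
the sum of the divisors are examples of such functions `f`, and `α v ^ d` with `α > 0`, `d ≥ 1` is an example of `G`. -/
theorem result :
    (∀ f : ℕ → ℕ, LM f → ∀ (G : ℕ → ℝ) (d : ℝ), Expanding G d → ∀ (n : ℕ) (σ κ : ℝ), 1 ≤ n → 0 ≤ σ → 0 ≤ κ →
      d * (1 / 2 + n * σ) + κ < 1 → ∀ U : ℕ, ∃ N₀ : ℕ, ∀ N : ℕ, N₀ ≤ N →
        ({m : ℕ | 1 ≤ m ∧ m ≤ N ∧ ¬ ∀ a : Fin n → ℕ, (∀ i, 1 ≤ a i) →
          |((∏ i, a i : ℕ) : ℝ) - G (f m)| ≤ (f m : ℝ) ^ κ →
          ∀ b : Fin n → ℤ, (∀ i, b i ≠ 0) → (∀ i, |(b i : ℝ)| ≤ ((∏ j, a j : ℕ) : ℝ) ^ σ) →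
            1 / 2 * (maxExp b : ℝ) / (H a b : ℝ) ≤ |P a b - 1|}.ncard : ℝ) ≤ N / Real.log N ^ U) ∧
    (LM Nat.totient ∧ LM (fun m => ∑ d ∈ m.divisors, d)) ∧
    ∀ α d : ℝ, 0 < α → 1 ≤ d → Expanding (fun v => α * (v : ℝ) ^ d) d := by
  refine ⟨fun f hf G d hG n σ κ hn hσ hκ h1 U => ?_, ⟨lm_totient, lm_sigma⟩, fun α d hα hd => expanding_pow hα hd⟩
  refine Pool.Agent.N733.TG.keep_good (fun a : Fin n → ℕ => ∀ i, 1 ≤ a i)
    (fun a : Fin n → ℕ => ∀ b : Fin n → ℤ, (∀ i, b i ≠ 0) → (∀ i, |(b i : ℝ)| ≤ ((∏ j, a j : ℕ) : ℝ) ^ σ) →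
      1 / 2 * (maxExp b : ℝ) / (H a b : ℝ) ≤ |P a b - 1|) (fun a => ((∏ i, a i : ℕ) : ℝ)) hf hG
    (s := 1 / 2 + n * σ) (by positivity) hκ h1 (fun ε hε => ?_) U
  obtain ⟨K, hK⟩ := WindowsWithoutExceptions.count n hn σ hσ ε hε
  refine ⟨K, fun X hX => ?_⟩
  obtain ⟨h2, h3⟩ := hK X hX
  have he : {a : Fin n → ℕ | ((∀ i, 1 ≤ a i) ∧ ¬ ∀ b : Fin n → ℤ, (∀ i, b i ≠ 0) →
      (∀ i, |(b i : ℝ)| ≤ ((∏ j, a j : ℕ) : ℝ) ^ σ) → 1 / 2 * (maxExp b : ℝ) / (H a b : ℝ) ≤ |P a b - 1|) ∧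
      ((∏ i, a i : ℕ) : ℝ) ≤ X} ⊆
      {a | a ∈ WindowsWithoutExceptions.Exc n σ ∧ ((∏ j, a j : ℕ) : ℝ) ≤ X} := by
    rintro a ⟨⟨g1, g2⟩, g3⟩
    push Not at g2
    obtain ⟨b, g4, g5, g6⟩ := g2
    exact ⟨⟨g1, b, g4, g5, g6⟩, g3⟩
  refine ⟨h2.subset he, le_trans ?_ h3⟩
  exact_mod_cast Set.ncard_le_ncard he h2

end Pool.Agent.Results.MP_e07dae_nt.MultiplicativeValues
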