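import Pool.Agent.N671.DA.Win
import Pool.Agent.Results.MP_e07dae_nt.WindowsWithoutExceptions

/-!
# The Lang-Waldschmidt inequality for all tuples whose product is near functions of the denominators of good approximations

Let `α_1, …, α_m` be real numbers. We consider the natural numbers `q` with `‖q α_j - β_j‖ ≤ c q^(-τ)` for all `j`, `‖x‖` the
distance to the nearest integer; for `β = 0`, `c = 1`, `τ = 1 / m` these include the denominators of all best simultaneous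
approximations (the denominators of the convergents for `m = 1`). They form a very sparse sequence, with gaps growing
exponentially for almost all `α` if `τ = 1 / m`. We show: let `G` be a function with steps bounded below by a positive constant
and growth at most `v^d`, for example `a v^d`, `n ≥ 1`, `σ ≥ 0` and `0 ≤ κ ≤ 1`. For all `α` in `ℝ^m` outside a set of Hausdorff
dimension at most `(m + d (1/2 + n σ) + κ) / (1 + τ)`, and all `c`, for all but finitely many such `q` the inequality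
`|P(a, b) - 1| ≥ (1/2) max |b_j| / H(a, b)` (no loss in the exponent) holds for ALL tuples `a` of `n` positive integers with
`|a_1 ⋯ a_n - G q| ≤ q ^ κ` and ALL tuples `b` of nonzero integers with `|b_j| ≤ (a_1 ⋯ a_n) ^ σ`. For `τ = 1 / m` the bound is
less than `m` if `d (1/2 + n σ) + κ < 1`; and so the statement holds for almost all `α`.

Proof. The `q` such that the product of some exceptional tuple is near `G q` form a set with `O(X^(d (1/2 + n σ) + κ + ε))`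
elements up to `X`, by the starting theorem `WindowsWithoutExceptions` of this problem; and the `α` with
`‖q α_j - β_j‖ ≤ c q^(-τ)` for all `j` and infinitely many `q` of such a set are covered by few small cubes.
-/

set_option autoImplicit false

namespace Pool.Agent.Results.MP_e07dae_nt.SimultaneousApproximations

open Finset
open Pool.Agent.N671.DA (Solves Expanding expanding_pow approx_good)

/-- `P(a, b) = a_1 ^ b_1 ... a_n ^ b_n`. -/
noncomputable def P {n : ℕ} (a : Fin n → ℕ) (b : Fin n → ℤ) : ℝ := ∏ i, (a i : ℝ) ^ b i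

/-- `H(a, b) = |b_1 ... b_n a_1 ... a_n|`. -/
def H {n : ℕ} (a : Fin n → ℕ) (b : Fin n → ℤ) : ℕ := ∏ i, (b i).natAbs * a i

/-- `max |b_j|`. -/
def maxExp {n : ℕ} (b : Fin n → ℤ) : ℕ := univ.sup fun i => (b i).natAbs

/-- the inequality holds for the bases `a` and all exponents up to a power of the product of the bases -/
def HoldsFor {n : ℕ} (σ : ℝ) (a : Fin n → ℕ) : Prop :=
  ∀ b : Fin n → ℤ, (∀ i, b i ≠ 0) → (∀ i, |(b i : ℝ)| ≤ ((∏ j, a j : ℕ) : ℝ) ^ σ) →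
    1 / 2 * (maxExp b : ℝ) / (H a b : ℝ) ≤ |P a b - 1|

lemma count (n : ℕ) (hn : 1 ≤ n) (σ : ℝ) (hσ : 0 ≤ σ) (ε : ℝ) (hε : 0 < ε) : ∃ C : ℝ, ∀ X : ℝ, 1 ≤ X →
    {a : Fin n → ℕ | ((∀ i, 1 ≤ a i) ∧ ¬ HoldsFor σ a) ∧ ((∏ i, a i : ℕ) : ℝ) ≤ X}.Finite ∧
      ({a : Fin n → ℕ | ((∀ i, 1 ≤ a i) ∧ ¬ HoldsFor σ a) ∧ ((∏ i, a i : ℕ) : ℝ) ≤ X}.ncard : ℝ) ≤
        C * X ^ (1 / 2 + n * σ + ε) := by
  obtain ⟨K, hK⟩ := WindowsWithoutExceptions.count n hn σ hσ ε hε
  refine ⟨K, fun X hX => ?_⟩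
  obtain ⟨h2, h3⟩ := hK X hX
  have he : {a : Fin n → ℕ | ((∀ i, 1 ≤ a i) ∧ ¬ HoldsFor σ a) ∧ ((∏ i, a i : ℕ) : ℝ) ≤ X} ⊆
      {a | a ∈ WindowsWithoutExceptions.Exc n σ ∧ ((∏ j, a j : ℕ) : ℝ) ≤ X} := by
    rintro a ⟨⟨g1, g2⟩, g3⟩
    unfold HoldsFor at g2
    push Not at g2
    obtain ⟨b, g4, g5, g6⟩ := g2
    exact ⟨⟨g1, b, g4, g5, g6⟩, g3⟩
  refine ⟨h2.subset he, le_trans ?_ h3⟩
  exact_mod_cast Set.ncard_le_ncard he h2

/-- **The Lang-Waldschmidt inequality near the denominators of good approximations.** Let `G` have steps `≥ c > 0` and growth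
at most `v ^ d`, `n ≥ 1`, `σ ≥ 0`, `0 ≤ κ ≤ 1`, `β` in `ℝ^m` and `τ > 0`. For all `α` in `ℝ^m` outside a set of Hausdorff dimension
at most `(m + d (1/2 + n σ) + κ) / (1 + τ)` and all `c`, for all large `q` with `‖q α_j - β_j‖ ≤ c q^(-τ)` for all `j`,
`|P(a, b) - 1| ≥ (1/2) max |b_j| / H(a, b)` for ALL tuples `a` of `n` positive integers with `|a_1 ⋯ a_n - G q| ≤ q ^ κ` and ALL
tuples `b` of nonzero integers with `|b_j| ≤ (a_1 ⋯ a_n) ^ σ`. The functions `a v^d` with `a > 0`, `d ≥ 1` are examples of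
`G`. -/
theorem result :
    (∀ (G : ℕ → ℝ) (d : ℝ), Expanding G d → ∀ (n : ℕ) (σ κ : ℝ), 1 ≤ n → 0 ≤ σ → 0 ≤ κ → κ ≤ 1 →
      ∀ (m : ℕ) (β : Fin m → ℝ) (τ : ℝ), 0 < τ →
      ∃ E : Set (Fin m → ℝ), dimH E ≤ ENNReal.ofReal ((m + (d * (1 / 2 + n * σ) + κ)) / (1 + τ)) ∧
        ∀ α, α ∉ E → ∀ c : ℝ, ∃ Q : ℕ, ∀ q : ℕ, Q ≤ q → Solves α β q (c * (q : ℝ) ^ (-τ)) →
          ∀ a : Fin n → ℕ, (∀ i, 1 ≤ a i) → |((∏ i, a i : ℕ) : ℝ) - G q| ≤ (q : ℝ) ^ κ →
          ∀ b : Fin n → ℤ, (∀ i, b i ≠ 0) → (∀ i, |(b i : ℝ)| ≤ ((∏ j, a j : ℕ) : ℝ) ^ σ) →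
            1 / 2 * (maxExp b : ℝ) / (H a b : ℝ) ≤ |P a b - 1|) ∧
    ∀ α d : ℝ, 0 < α → 1 ≤ d → Expanding (fun v => α * (v : ℝ) ^ d) d := by
  refine ⟨fun G d hG n σ κ hn hσ hκ hκ1 m β τ hτ => ?_, fun α d hα hd => expanding_pow hα hd⟩
  exact approx_good (fun a : Fin n → ℕ => ∀ i, 1 ≤ a i) (fun a : Fin n → ℕ => HoldsFor σ a)
    (fun a => ((∏ i, a i : ℕ) : ℝ)) hG (s := 1 / 2 + n * σ) (κ := κ) (by positivity) hκ hκ1
    (fun ε hε => count n hn σ hσ ε hε) β hτ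

end Pool.Agent.Results.MP_e07dae_nt.SimultaneousApproximations
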